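import Mathlib
import Pool.Agent.X298.KS.Cases

/-!
MP_4819b8_nt, Q1 (partial): the Ramanujan–Petersson bound for the characters of the Hecke ring `T_1(n)` of `GL_2`
over a number field at the primes of norm at most `11`: at least a fixed proportion of the Galois conjugates of a
nontrivial character satisfy it.
-/

namespace Pool.Agent.Results.MP_4819b8_nt.ConjugateEigenvalues

open Pool.Agent.X298.KS

theorem result (R : Type) [CommRing R] [Module.Finite ℤ R] (T S : R) (N : ℕ) (θ : R →+* ℂ)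
    (h : ∀ θ' ∈ Conj θ, Known T S N θ') :
    -- (1) positive proportions at norms 2, 3, 4, 5
    (N = 2 → (Conj θ).Finite ∧ 59 * (Conj θ).ncard ≤ 100 * (Good T N θ).ncard) ∧
    (N = 3 → (Conj θ).Finite ∧ 41 * (Conj θ).ncard ≤ 100 * (Good T N θ).ncard) ∧
    (N = 4 → (Conj θ).Finite ∧ 26 * (Conj θ).ncard ≤ 100 * (Good T N θ).ncard) ∧
    (N = 5 → (Conj θ).Finite ∧ 18 * (Conj θ).ncard ≤ 100 * (Good T N θ).ncard) ∧
    -- (2) positive proportions at norms 7, 8, 9, 11, outside a few exceptional values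
    (N = 7 → ‖θ T‖ ^ 2 ≠ 29 → (Conj θ).Finite ∧ 15 * (Conj θ).ncard ≤ 100 * (Good T N θ).ncard) ∧
    (N = 8 → ‖θ T‖ ^ 2 ≠ 33 → (Conj θ).Finite ∧ 9 * (Conj θ).ncard ≤ 100 * (Good T N θ).ncard) ∧
    (N = 9 → ‖θ T‖ ^ 2 ≠ 37 ∧ ‖θ T‖ ^ 2 ≠ 38 →
      (Conj θ).Finite ∧ 8 * (Conj θ).ncard ≤ 100 * (Good T N θ).ncard) ∧
    (N = 11 → ‖θ T‖ ^ 2 ≠ 45 ∧ ‖θ T‖ ^ 2 ≠ 46 ∧ ‖θ T‖ ^ 2 ≠ 47 ∧
        (‖θ T‖ ^ 2 - 44) ^ 2 - 3 * (‖θ T‖ ^ 2 - 44) + 1 ≠ 0 →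
      (Conj θ).Finite ∧ 3 * (Conj θ).ncard ≤ 200 * (Good T N θ).ncard) ∧
    -- (3) the bound itself when `|θ(T)|²` has degree at most two and the norm is 2
    (N = 2 → ∀ b c : ℤ, (‖θ T‖ ^ 2) ^ 2 + b * ‖θ T‖ ^ 2 + c = 0 → ‖θ T‖ ≤ 2 * Real.sqrt N) ∧
    -- (4) the bound itself when `|θ(T)|²` is an integer and the norm is at most 5
    (N = 2 ∨ N = 3 ∨ N = 4 ∨ N = 5 → ∀ n : ℤ, ‖θ T‖ ^ 2 = n → ‖θ T‖ ≤ 2 * Real.sqrt N) ∧
    -- (5) the bound itself when `θ(T)` is an integer and the norm is in a list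
    (N ∈ [2, 3, 4, 5, 7, 8, 9, 11, 13, 16, 17, 25, 31] → ∀ a : ℤ, θ T = a → ‖θ T‖ ≤ 2 * Real.sqrt N) := by
  refine ⟨?_, ?_, ?_, ?_, ?_, ?_, ?_, ?_, ?_, ?_, ?_⟩
  · rintro rfl; exact case2 h
  · rintro rfl; exact case3 h
  · rintro rfl; exact case4 h
  · rintro rfl; exact case5 h
  · rintro rfl hex; exact case7 h hex
  · rintro rfl hex; exact case8 h hex
  · rintro rfl hex; exact case9 h hex
  · rintro rfl hex; exact case11 h hex
  · rintro rfl b c hbc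
    exact_mod_cast deg_two h hbc
  · intro hN n hn
    exact rat_value N (h θ rfl) hN hn
  · intro hN a ha
    exact int_eigen N (h θ rfl) hN ha

end Pool.Agent.Results.MP_4819b8_nt.ConjugateEigenvalues
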