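import Pool.Agent.X308.Bc.Main

/-!
# The Ramanujan bound from a weaker bound over fields of large degree
-/

set_option autoImplicit false

namespace Pool.Agent.Results.MP_4819b8_nt.FieldsOfLargeDegree

open Pool.Agent.X308.Bc

/-- **Theorem.** The bound `|θ(T)| ≤ 2 N^(1/2)` for all number fields is equivalent to the
following: for every `ε > 0` there are `A` and `D` such that `|θ(T)| ≤ A e^(ε n) N^(1/2 + ε)` for
all number fields of degree `n ≥ D`. -/
theorem result (C : HeckeClass) : C.Ramanujan ↔ C.WeakBound := HeckeClass.ramanujan_iff

end Pool.Agent.Results.MP_4819b8_nt.FieldsOfLargeDegree
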